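import Pool.Agent.helper81.DI.SpecA
import Pool.Agent.helper34.DC.PR0

/-! # Project di: A3, chains in the normaliser of the smallest term -/

set_option autoImplicit false

namespace Pool.Agent.DI

open Pool.Agent.helper58.DC

section

variable {Γ : Type} [Group Γ]

theorem A3_mem {C : Finset (Subgroup Γ)} {g : Γ} : g ∈ nrm C ↔ ∀ P ∈ C, g ∈ nz P := by
  unfold nrm
  simp only [Subgroup.mem_iInf]

/-- conjugation by an element which normalises `P` preserves `nz P` -/
theorem A3_nznz {P : Subgroup Γ} {g : Γ} (hg : g ∈ nz P) : g ∈ nz (nz P) := by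
  rw [Subgroup.mem_normalizer_iff]
  intro y
  constructor
  · intro hy
    exact Subgroup.mul_mem _ (Subgroup.mul_mem _ hg hy) (Subgroup.inv_mem _ hg)
  · intro hy
    have h8 := Subgroup.mul_mem _ (Subgroup.mul_mem _ (Subgroup.inv_mem _ hg) hy) hg
    have h9 : g⁻¹ * (g * y * g⁻¹) * g = y := by group
    rwa [h9] at h8

theorem A3_inf {P Q : Subgroup Γ} {g : Γ} (hP : g ∈ nz P) (hQ : g ∈ nz Q) : g ∈ nz (P ⊓ Q) := by
  rw [Subgroup.mem_normalizer_iff] at *
  intro y
  rw [Subgroup.mem_inf, Subgroup.mem_inf, hP y, hQ y]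

theorem A3_nrm {C : Finset (Subgroup Γ)} {P R : Subgroup Γ} (hP : P ∈ C) (hR : R ∈ C) :
    nrm C ≤ nz (R ⊓ nz P) := by
  intro g hg
  exact A3_inf (A3_mem.1 hg R hR) (A3_nznz (A3_mem.1 hg P hP))

theorem A3_insert {C : Finset (Subgroup Γ)} [DecidableEq (Subgroup Γ)] {P R : Subgroup Γ}
    (hP : P ∈ C) (hR : R ∈ C) : nrm (insert (R ⊓ nz P) C) = nrm C := by
  apply le_antisymm
  · intro g hg
    rw [A3_mem] at hg ⊢
    exact fun Q hQ => hg Q (Finset.mem_insert_of_mem hQ)
  · intro g hg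
    have h := A3_nrm hP hR hg
    rw [A3_mem] at hg ⊢
    intro Q hQ
    rcases Finset.mem_insert.1 hQ with rfl | hQ
    · exact h
    · exact hg Q hQ

/-- the smallest term not contained in `N` -/
theorem A3_min [Finite Γ] {C : Finset (Subgroup Γ)} (hC : IsChain (· ≤ ·) (C : Set (Subgroup Γ)))
    (N : Subgroup Γ) (h : ∃ R ∈ C, ¬ R ≤ N) :
    sInf {R | R ∈ C ∧ ¬ R ≤ N} ∈ C ∧ ¬ sInf {R | R ∈ C ∧ ¬ R ≤ N} ≤ N := by
  obtain ⟨R₀, hR₀, hR₀'⟩ := h
  obtain ⟨R, hR⟩ := Set.Finite.exists_minimal (s := {R | R ∈ C ∧ ¬ R ≤ N}) (Set.toFinite _)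
    ⟨R₀, hR₀, hR₀'⟩
  have h1 : sInf {R | R ∈ C ∧ ¬ R ≤ N} = R := by
    apply le_antisymm
    · exact sInf_le hR.1
    · refine le_sInf fun Q hQ => ?_
      by_cases hne : Q = R
      · rw [hne]
      · rcases hC hQ.1 hR.1.1 hne with h2 | h2
        · exact hR.2 hQ h2
        · exact h2
  rw [h1]
  exact hR.1

end

/-- A3. Chains may be taken in the normaliser of the smallest term. -/
theorem A3 (h1 : A1_stmt) : A3_stmt := by
  classical
  intro Γ _ _ p _ L P M g
  set S : Set (Finset (Subgroup Γ)) := {C | PCh p L P C ∧ ∃ R ∈ C, ¬ R ≤ nz P} with hS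
  have hsplit : {C : Finset (Subgroup Γ) | PCh p L P C} =
      {C : Finset (Subgroup Γ) | PCh p (L ⊓ nz P) P C} ∪ S := by
    ext C
    constructor
    · intro hC
      have hC' : PCh p L P C := hC
      by_cases h : ∃ R ∈ C, ¬ R ≤ nz P
      · exact Or.inr ⟨hC', h⟩
      · push Not at h
        exact Or.inl ⟨hC'.chain, hC'.mem, hC'.bot, fun Q hQ => le_inf (hC'.le Q hQ) (h Q hQ),
          hC'.pg⟩
    · rintro (hC | hC)
      · have hC' : PCh p (L ⊓ nz P) P C := hC
        exact ⟨hC'.chain, hC'.mem, hC'.bot, fun Q hQ => (hC'.le Q hQ).trans inf_le_left, hC'.pg⟩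
      · exact hC.1
  have hdis : Disjoint {C : Finset (Subgroup Γ) | PCh p (L ⊓ nz P) P C} S := by
    rw [Set.disjoint_left]
    rintro C hC ⟨_, R, hR, hR'⟩
    have hC' : PCh p (L ⊓ nz P) P C := hC
    exact hR' ((hC'.le R hR).trans inf_le_right)
  have hzero : ∑ᶠ C ∈ S, (-1) ^ (C.card + 1) * g (M ⊓ nrm C) = 0 := by
    refine h1 (Subgroup Γ) S (fun C => sInf {R | R ∈ C ∧ ¬ R ≤ nz P} ⊓ nz P)
      (fun C => g (M ⊓ nrm C)) ?_
    rintro C ⟨hC, hex⟩ D hD
    obtain ⟨hR1, hR2⟩ := A3_min hC.chain (nz P) hex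
    set R := sInf {R | R ∈ C ∧ ¬ R ≤ nz P} with hRdef
    have hD' : D = insert (R ⊓ nz P) C ∨ D = C.erase (R ⊓ nz P) := hD
    have hPR : P ≤ R := hC.bot R hR1
    have hPn : P ≤ nz P := Subgroup.le_normalizer
    have hPt : P ≤ R ⊓ nz P := le_inf hPR hPn
    have hPne : P ≠ R ⊓ nz P := by
      intro h
      have h2 : P = R := by
        refine Pool.Agent.helper34.DC.PR0_norm p P R hPR (hC.pg R hR1) ?_
        exact h.symm.le
      exact hR2 (h2 ▸ hPn)
    have hRne : R ≠ R ⊓ nz P := by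
      intro h
      exact hR2 (h ▸ inf_le_right)
    -- the other terms
    have hRmin : ∀ Q ∈ C, ¬ Q ≤ nz P → R ≤ Q := fun Q hQ hQ' => sInf_le ⟨hQ, hQ'⟩
    have hlow : ∀ Q ∈ C, Q ≤ nz P → Q ≤ R ⊓ nz P := by
      intro Q hQ hQ'
      refine le_inf ?_ hQ'
      by_cases hne : Q = R
      · rw [hne]
      · rcases hC.chain hQ hR1 hne with h2 | h2
        · exact h2
        · exact absurd (h2.trans hQ') hR2
    have hB : {R | R ∈ D ∧ ¬ R ≤ nz P} = {R | R ∈ C ∧ ¬ R ≤ nz P} := by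
      ext Q
      simp only [Set.mem_ofPred_eq]
      rcases hD' with h | h
      · rw [h, Finset.mem_insert]
        constructor
        · rintro ⟨h2 | h2, h3⟩
          · exact absurd (h2 ▸ inf_le_right) h3
          · exact ⟨h2, h3⟩
        · rintro ⟨h2, h3⟩
          exact ⟨Or.inr h2, h3⟩
      · rw [h, Finset.mem_erase]
        constructor
        · rintro ⟨⟨_, h2⟩, h3⟩
          exact ⟨h2, h3⟩
        · rintro ⟨h2, h3⟩
          exact ⟨⟨fun h4 => h3 (h4 ▸ inf_le_right), h2⟩, h3⟩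
    refine ⟨?_, ?_, ?_⟩
    · rcases hD' with rfl | rfl
      · refine ⟨⟨?_, Finset.mem_insert_of_mem hC.mem, ?_, ?_, ?_⟩, R,
          Finset.mem_insert_of_mem hR1, hR2⟩
        · rw [Finset.coe_insert]
          refine hC.chain.insert fun Q hQ _ => ?_
          by_cases h3 : Q ≤ nz P
          · exact Or.inr (hlow Q hQ h3)
          · exact Or.inl (inf_le_left.trans (hRmin Q hQ h3))
        · intro Q hQ
          rcases Finset.mem_insert.1 hQ with rfl | hQ
          · exact hPt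
          · exact hC.bot Q hQ
        · intro Q hQ
          rcases Finset.mem_insert.1 hQ with rfl | hQ
          · exact inf_le_left.trans (hC.le R hR1)
          · exact hC.le Q hQ
        · intro Q hQ
          rcases Finset.mem_insert.1 hQ with rfl | hQ
          · exact (hC.pg R hR1).to_le inf_le_left
          · exact hC.pg Q hQ
      · refine ⟨⟨?_, Finset.mem_erase.2 ⟨hPne, hC.mem⟩, ?_, ?_, ?_⟩, R,
          Finset.mem_erase.2 ⟨hRne, hR1⟩, hR2⟩
        · exact hC.chain.mono (Finset.coe_subset.2 (Finset.erase_subset _ _))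
        · exact fun Q hQ => hC.bot Q (Finset.mem_of_mem_erase hQ)
        · exact fun Q hQ => hC.le Q (Finset.mem_of_mem_erase hQ)
        · exact fun Q hQ => hC.pg Q (Finset.mem_of_mem_erase hQ)
    · show sInf {R | R ∈ D ∧ ¬ R ≤ nz P} ⊓ nz P = sInf {R | R ∈ C ∧ ¬ R ≤ nz P} ⊓ nz P
      rw [hB]
    · show g (M ⊓ nrm D) = g (M ⊓ nrm C)
      have h3 : nrm D = nrm C := by
        rcases hD' with rfl | rfl
        · exact A3_insert hC.mem hR1
        · by_cases h4 : R ⊓ nz P ∈ C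
          · have h5 := A3_insert (C := C.erase (R ⊓ nz P)) (P := P) (R := R)
              (Finset.mem_erase.2 ⟨hPne, hC.mem⟩) (Finset.mem_erase.2 ⟨hRne, hR1⟩)
            rw [Finset.insert_erase h4] at h5
            exact h5.symm
          · rw [Finset.erase_eq_of_notMem h4]
      rw [h3]
  unfold cSum
  rw [hsplit, finsum_mem_union hdis (Set.toFinite _) (Set.toFinite _), hzero, add_zero]

end Pool.Agent.DI
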