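import Pool.Agent.helper81.DI.SpecA

/-! # Project di: A8, transport of radical chains along an injective homomorphism -/

set_option autoImplicit false

namespace Pool.Agent.DI

open Pool.Agent.helper58.DC

section

variable {K Γ : Type} [Group K] [Group Γ] {i : K →* Γ}

theorem A8_mem (hi : Function.Injective i) (P : Subgroup K) (x : K) :
    i x ∈ nz (P.map i) ↔ x ∈ nz P := by
  rw [Subgroup.mem_normalizer_iff, Subgroup.mem_normalizer_iff]
  constructor
  · intro h k
    have h1 := h (i k)
    rw [Subgroup.mem_map_iff_mem hi, ← map_inv, ← map_mul, ← map_mul,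
      Subgroup.mem_map_iff_mem hi] at h1
    exact h1
  · intro h y
    constructor
    · rintro ⟨k, hk, rfl⟩
      rw [← map_inv, ← map_mul, ← map_mul]
      exact Subgroup.mem_map_of_mem i ((h k).1 hk)
    · rintro ⟨k, hk, hky⟩
      have h1 : x⁻¹ * k * x ∈ P := by
        rw [h]
        have h2 : x * (x⁻¹ * k * x) * x⁻¹ = k := by group
        rwa [h2]
      refine ⟨x⁻¹ * k * x, h1, ?_⟩
      rw [map_mul, map_mul, map_inv, hky]
      group

theorem A8_nrm {C : Finset (Subgroup K)} {g : K} :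
    g ∈ nrm C ↔ ∀ P ∈ C, g ∈ nz P := by
  unfold nrm
  simp only [Subgroup.mem_iInf]

theorem A8_mapnrm (hi : Function.Injective i) (C : Finset (Subgroup K)) :
    (nrm C).map i = i.range ⊓ nrm (cmap i C) := by
  classical
  ext y
  rw [Subgroup.mem_inf]
  constructor
  · rintro ⟨x, hx, rfl⟩
    refine ⟨⟨x, rfl⟩, ?_⟩
    rw [A8_nrm]
    intro Q hQ
    unfold cmap at hQ
    rw [Finset.mem_image] at hQ
    obtain ⟨P, hP, rfl⟩ := hQ
    rw [A8_mem hi]
    exact A8_nrm.1 hx P hP
  · rintro ⟨⟨x, rfl⟩, hx⟩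
    refine Subgroup.mem_map_of_mem i ?_
    rw [A8_nrm]
    intro P hP
    rw [← A8_mem hi]
    refine A8_nrm.1 hx _ ?_
    unfold cmap
    exact Finset.mem_image_of_mem _ hP

open Classical in
theorem A8_filter (hi : Function.Injective i) (C : Finset (Subgroup K)) (P : Subgroup K) :
    (cmap i C).filter (· ≤ P.map i) = cmap i (C.filter (· ≤ P)) := by
  unfold cmap
  ext Q
  simp only [Finset.mem_filter, Finset.mem_image]
  constructor
  · rintro ⟨⟨R, hR, rfl⟩, h⟩
    exact ⟨R, ⟨hR, (Subgroup.map_le_map_iff_of_injective hi).1 h⟩, rfl⟩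
  · rintro ⟨R, ⟨hR, h⟩, rfl⟩
    exact ⟨⟨R, hR, rfl⟩, Subgroup.map_mono h⟩

theorem A8_pg (hi : Function.Injective i) (p : ℕ) (P : Subgroup K) :
    IsPGroup p (P.map i) ↔ IsPGroup p P := by
  constructor
  · intro h
    exact h.of_equiv (P.equivMapOfInjective i hi).symm
  · intro h
    exact h.map i

theorem A8_iff (h14 : A14_stmt) (hi : Function.Injective i) (p : ℕ) (C : Finset (Subgroup K)) :
    IsRadical p C ↔ RadIn p i.range (cmap i C) := by
  classical
  have hop := (h14 K Γ p i hi).1
  have hmem : ∀ P, P.map i ∈ cmap i C ↔ P ∈ C := by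
    intro P
    unfold cmap
    rw [Finset.mem_image]
    constructor
    · rintro ⟨Q, hQ, h⟩
      rwa [← Subgroup.map_injective hi h]
    · intro h
      exact ⟨P, h, rfl⟩
  have hmem2 : ∀ Q ∈ cmap i C, ∃ P ∈ C, P.map i = Q := by
    intro Q hQ
    unfold cmap at hQ
    exact Finset.mem_image.1 hQ
  have hrange : (⊤ : Subgroup K).map i = i.range := (MonoidHom.range_eq_map i).symm
  constructor
  · intro h
    obtain ⟨P₀, hP₀, hmin, hop0, hopP⟩ := h.radical
    refine ⟨?_, ?_, P₀.map i, (hmem P₀).2 hP₀, ?_, ?_, ?_⟩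
    · intro Q hQ R hR hne
      obtain ⟨Q', hQ', rfl⟩ := hmem2 Q hQ
      obtain ⟨R', hR', rfl⟩ := hmem2 R hR
      have hne' : Q' ≠ R' := fun e => hne (by rw [e])
      rcases h.chain hQ' hR' hne' with h1 | h1
      · exact Or.inl (Subgroup.map_mono h1)
      · exact Or.inr (Subgroup.map_mono h1)
    · intro Q hQ
      obtain ⟨Q', hQ', rfl⟩ := hmem2 Q hQ
      exact (h.isPGroup Q' hQ').map i
    · intro Q hQ
      obtain ⟨Q', hQ', rfl⟩ := hmem2 Q hQ
      exact Subgroup.map_mono (hmin Q' hQ')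
    · rw [← hrange]
      exact (hop ⊤ P₀).1 hop0
    · intro Q hQ hne
      obtain ⟨Q', hQ', rfl⟩ := hmem2 Q hQ
      have hne' : Q' ≠ P₀ := fun e => hne (by rw [e])
      rw [A8_filter hi, ← A8_mapnrm hi]
      exact (hop _ Q').1 (hopP Q' hQ' hne')
  · intro h
    obtain ⟨P₁, hP₁, hmin, hop0, hopP⟩ := h.rad
    obtain ⟨P₀, hP₀, rfl⟩ := hmem2 P₁ hP₁
    refine ⟨?_, ?_, P₀, hP₀, ?_, ?_, ?_⟩
    · intro Q hQ R hR hne
      have hne' : Q.map i ≠ R.map i := fun e => hne (Subgroup.map_injective hi e)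
      rcases h.chain ((hmem Q).2 hQ) ((hmem R).2 hR) hne' with h1 | h1
      · exact Or.inl ((Subgroup.map_le_map_iff_of_injective hi).1 h1)
      · exact Or.inr ((Subgroup.map_le_map_iff_of_injective hi).1 h1)
    · intro Q hQ
      exact (A8_pg hi p Q).1 (h.pg _ ((hmem Q).2 hQ))
    · intro Q hQ
      exact (Subgroup.map_le_map_iff_of_injective hi).1 (hmin _ ((hmem Q).2 hQ))
    · rw [← hrange] at hop0
      exact (hop ⊤ P₀).2 hop0
    · intro Q hQ hne
      have hne' : Q.map i ≠ P₀.map i := fun e => hne (Subgroup.map_injective hi e)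
      have h1 := hopP _ ((hmem Q).2 hQ) hne'
      rw [A8_filter hi, ← A8_mapnrm hi] at h1
      exact (hop _ Q).2 h1

end

/-- A8. Transport of radical chains along an injective homomorphism. -/
theorem A8 (h14 : A14_stmt) : A8_stmt := by
  classical
  intro K Γ _ _ _ _ p _ i hi M g
  unfold rSum
  refine finsum_mem_eq_of_bijOn (cmap i) ⟨?_, ?_, ?_⟩ ?_
  · intro C hC
    exact (A8_iff h14 hi p C).1 hC
  · intro C _ D _ h
    unfold cmap at h
    exact Finset.image_injective (Subgroup.map_injective hi) h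
  · intro D hD
    have hD' : RadIn p i.range D := hD
    have hle : ∀ Q ∈ D, Q ≤ i.range := by
      obtain ⟨P₀, _, _, hop0, hopP⟩ := hD'.rad
      intro Q hQ
      by_cases h : Q = P₀
      · rw [h]
        exact hop0.1.1
      · exact (hopP Q hQ h).1.1.trans inf_le_left
    have hDc : cmap i (D.image (Subgroup.comap i)) = D := by
      unfold cmap
      rw [Finset.image_image]
      ext Q
      rw [Finset.mem_image]
      constructor
      · rintro ⟨R, hR, rfl⟩
        rw [Function.comp_apply, Subgroup.map_comap_eq, inf_eq_right.2 (hle R hR)]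
        exact hR
      · intro hQ
        refine ⟨Q, hQ, ?_⟩
        rw [Function.comp_apply, Subgroup.map_comap_eq, inf_eq_right.2 (hle Q hQ)]
    refine ⟨D.image (Subgroup.comap i), ?_, hDc⟩
    show IsRadical p (D.image (Subgroup.comap i))
    rw [A8_iff h14 hi p, hDc]
    exact hD'
  · intro C _
    have hcard : (cmap i C).card = C.card := by
      unfold cmap
      exact Finset.card_image_of_injective _ (Subgroup.map_injective hi)
    rw [hcard]

end Pool.Agent.DI
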