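import Pool.Agent.helper81.DI.SpecA

/-! # Project di: A9, normalisers of subgroups which meet `G` trivially -/

set_option autoImplicit false

namespace Pool.Agent.DI

open Pool.Agent.helper58.DC

/-- A9. -/
theorem A9 : A9_stmt := by
  intro Γ _ _ G Q hG hcomm hQ
  have h1 : nz Q ≤ cz Q := by
    intro n hn
    rw [Subgroup.mem_normalizer_iff] at hn
    rw [Subgroup.mem_centralizer_iff]
    intro q hq
    have h2 : n * q * n⁻¹ * q⁻¹ ∈ Q ⊓ G :=
      ⟨Q.mul_mem ((hn q).1 hq) (Q.inv_mem hq), hcomm n q⟩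
    rw [hQ, Subgroup.mem_bot] at h2
    have h3 : n * q * n⁻¹ = q := mul_inv_eq_one.1 h2
    have h4 : n * q = q * n := by
      rw [← mul_inv_eq_iff_eq_mul]
      exact h3
    exact h4.symm
  have h2 : cz Q ≤ nz Q := by
    intro c hc
    rw [Subgroup.mem_centralizer_iff] at hc
    rw [Subgroup.mem_normalizer_iff]
    have h5 : ∀ q ∈ Q, c * q * c⁻¹ = q := fun q hq => by
      rw [← hc q hq]
      group
    intro h
    constructor
    · intro hh
      rw [h5 h hh]
      exact hh
    · intro hh
      have h6 := h5 _ hh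
      have h7 : c * h * c⁻¹ = h := by
        have h8 : c * (c * h * c⁻¹) * c⁻¹ = c * h * c⁻¹ := h6
        have h9 := mul_right_cancel h8
        exact mul_left_cancel h9
      rwa [h7] at hh
  have h3 := le_antisymm h1 h2
  exact ⟨h3, h3 ▸ Subgroup.le_normalizer⟩

end Pool.Agent.DI
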